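import Pool.Agent.Y140.AW.Stm2
import Pool.Agent.Y140.AW.Bas

/-!
The norm of `Θ_Z` is a constant square for all parameters (project AW2 of helper140).
-/

set_option autoImplicit false
set_option linter.all false

namespace Pool.Agent.Y3.AW2

open Polynomial Pool.Agent.Y140.AW

/-- A family of points with different first coordinates is, up to the order, the full family. -/
theorem prod_eq {K N : Type} [Field K] [Field N] [Algebra K N] {Θ : K[X][X]} {D : K[X]}
    {p B m n : ℕ} {ν : Fin m → N} {s : N} {x θ x' θ' : Fin n → N}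
    (hex : ∀ a b, IsPt Θ D p B ν s a b → ∃ l, a = x l ∧ b = θ l)
    (hx' : Function.Injective x') (hpt' : ∀ l, IsPt Θ D p B ν s (x' l) (θ' l)) :
    ∏ l, tZ Θ (x' l) (θ' l) = ∏ l, tZ Θ (x l) (θ l) := by
  choose π h1 using fun l => hex _ _ (hpt' l)
  have hπ : Function.Injective π := fun a b hab => hx' (by rw [(h1 a).1, (h1 b).1, hab])
  have hb : Function.Bijective π := Finite.injective_iff_bijective.1 hπ
  rw [← hb.prod_comp (fun l => tZ Θ (x l) (θ l))]
  exact Finset.prod_congr rfl fun l _ => by rw [(h1 l).1, (h1 l).2]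

/-- Extension of the evaluation at `c`. -/
theorem specB {N AA : Type} [Field N] [IsAlgClosed N] [CommRing AA] [Algebra N AA]
    (f : N[X] →ₐ[N] AA) (hf : Function.Injective f) (hint : (f : N[X] →+* AA).IsIntegral) (c : N) :
    ∃ ρ : AA →ₐ[N] N, ρ (f X) = c := by
  letI : Algebra N[X] AA := (f : N[X] →+* AA).toAlgebra
  haveI : Algebra.IsIntegral N[X] AA := ⟨hint⟩
  have hsurj : Function.Surjective (evalRingHom c) := fun n => ⟨C n, by
    rw [coe_evalRingHom, eval_C]⟩
  haveI hP : (RingHom.ker (evalRingHom c)).IsMaximal := RingHom.ker_isMaximal_of_surjective _ hsurj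
  have hker : RingHom.ker (algebraMap N[X] AA) ≤ RingHom.ker (evalRingHom c) := by
    intro q hq
    have h1 : f q = 0 := hq
    have h2 : q = 0 := hf (by rw [h1, map_zero])
    rw [h2]
    exact Ideal.zero_mem _
  obtain ⟨Q, hQ, hQP⟩ := Ideal.exists_ideal_over_maximal_of_isIntegral
    (RingHom.ker (evalRingHom c)) hker
  haveI := hQ
  have hcomp : (Ideal.Quotient.mk Q).comp (f : N[X] →+* AA) =
      (algebraMap N (AA ⧸ Q)).comp (evalRingHom c) := by
    apply Polynomial.ringHom_ext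
    · intro a
      change Ideal.Quotient.mk Q (f (C a)) = algebraMap N (AA ⧸ Q) (eval c (C a))
      rw [eval_C]
      have : f (C a) = algebraMap N AA a := f.commutes a
      rw [this]
      rfl
    · change Ideal.Quotient.mk Q (f X) = algebraMap N (AA ⧸ Q) (eval c X)
      rw [eval_X]
      have h1 : (X - C c : N[X]) ∈ Q.comap (algebraMap N[X] AA) := by
        rw [hQP, RingHom.mem_ker, coe_evalRingHom, eval_sub, eval_X, eval_C, sub_self]
      have h2 : f (X - C c) ∈ Q := h1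
      rw [map_sub] at h2
      have h3 := (Ideal.Quotient.eq).2 h2
      rw [h3]
      have : f (C c) = algebraMap N AA c := f.commutes c
      rw [this]
      rfl
  haveI : Algebra.IsIntegral N (AA ⧸ Q) := by
    constructor
    intro z
    obtain ⟨a, rfl⟩ := Ideal.Quotient.mk_surjective z
    obtain ⟨P, hP, hP0⟩ := hint a
    refine ⟨P.map (evalRingHom c), hP.map _, ?_⟩
    rw [eval₂_map, ← hcomp, ← hom_eval₂, hP0, map_zero]
  have hb := IsAlgClosed.algebraMap_bijective_of_isIntegral (k := N) (K := AA ⧸ Q)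
  obtain ⟨e, he⟩ : ∃ e : N ≃ₐ[N] (AA ⧸ Q), ∀ n, e n = algebraMap N (AA ⧸ Q) n :=
    ⟨AlgEquiv.ofBijective (Algebra.ofId N (AA ⧸ Q)) hb, fun n => rfl⟩
  refine ⟨(e.symm : (AA ⧸ Q) →ₐ[N] N).comp (Ideal.Quotient.mkₐ N Q), ?_⟩
  change e.symm (Ideal.Quotient.mk Q (f X)) = c
  rw [AlgEquiv.symm_apply_eq, he]
  have h1 := RingHom.congr_fun hcomp X
  change Ideal.Quotient.mk Q (f X) = algebraMap N (AA ⧸ Q) (eval c X) at h1
  rw [h1, eval_X]

/-- The specialisations of the integral closure of `N[S₀]`. -/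
theorem spec (K N N' : Type) [Field K] [Field N] [IsAlgClosed N] [Algebra K N] [Field N']
    [Algebra K N'] [Algebra N N'] [IsScalarTower K N N'] (S₀ : N') (hS : Transcendental N S₀) :
    ∃ A : Subalgebra K N', (∀ z : N', IsIntegral A z → z ∈ A) ∧ S₀ ∈ A ∧
      (∀ n : N, algebraMap N N' n ∈ A) ∧
      ∀ c : N, ∃ ρ : A →ₐ[K] N, (∀ h : S₀ ∈ A, ρ ⟨S₀, h⟩ = c) ∧
        ∀ (n : N) (h : algebraMap N N' n ∈ A), ρ ⟨algebraMap N N' n, h⟩ = n := by
  letI : Algebra N[X] N' := ((aeval S₀ : N[X] →ₐ[N] N') : N[X] →+* N').toAlgebra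
  haveI : IsScalarTower N N[X] N' := IsScalarTower.of_algebraMap_eq fun n => by
    change algebraMap N N' n = aeval S₀ (C n)
    rw [aeval_C]
  haveI : IsScalarTower K N[X] N' := IsScalarTower.of_algebraMap_eq fun n => by
    change algebraMap K N' n = aeval S₀ (C (algebraMap K N n))
    rw [aeval_C, ← IsScalarTower.algebraMap_apply]
  have hX : algebraMap N[X] N' X = S₀ := aeval_X S₀
  have hC : ∀ n, algebraMap N[X] N' (C n) = algebraMap N N' n := fun n => aeval_C S₀ n
  refine ⟨(integralClosure N[X] N').restrictScalars K, ?_, ?_, ?_, ?_⟩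
  · intro z hz
    have h1 : IsIntegral (integralClosure N[X] N') z := hz
    exact isIntegral_trans (R := N[X]) z h1
  · change IsIntegral N[X] S₀
    rw [← hX]
    exact isIntegral_algebraMap
  · intro n
    change IsIntegral N[X] (algebraMap N N' n)
    rw [← hC]
    exact isIntegral_algebraMap
  · intro c
    obtain ⟨ρ, hρ⟩ := specB (IsScalarTower.toAlgHom N N[X] (integralClosure N[X] N')) (by
      intro a b hab
      have h1 : algebraMap N[X] N' a = algebraMap N[X] N' b := congrArg Subtype.val hab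
      exact (transcendental_iff_injective.1 hS) h1) (fun z => integralClosure.isIntegral z) c
    have hc : ∀ (n : N) (h : algebraMap N N' n ∈ integralClosure N[X] N'),
        ρ ⟨algebraMap N N' n, h⟩ = n := by
      intro n h
      have h1 := ρ.commutes n
      exact h1
    refine ⟨{ toFun := fun z => ρ ⟨z.1, z.2⟩
              map_one' := map_one ρ
              map_mul' := fun a b => map_mul ρ ⟨a.1, a.2⟩ ⟨b.1, b.2⟩
              map_zero' := map_zero ρ
              map_add' := fun a b => map_add ρ ⟨a.1, a.2⟩ ⟨b.1, b.2⟩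
              commutes' := ?_ }, ?_, ?_⟩
    · intro r
      have h1 : algebraMap K N' r = algebraMap N N' (algebraMap K N r) :=
        IsScalarTower.algebraMap_apply K N N' r
      have h2 := hc (algebraMap K N r) (by
        change IsIntegral N[X] (algebraMap N N' (algebraMap K N r))
        rw [← hC]
        exact isIntegral_algebraMap)
      refine Eq.trans ?_ h2
      change ρ _ = ρ _
      congr 1
      exact Subtype.ext h1
    · intro h
      refine Eq.trans ?_ hρ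
      change ρ _ = ρ _
      congr 1
      exact Subtype.ext hX.symm
    · intro n h
      exact hc n h

theorem int_res {K N N' : Type} [Field K] [Field N] [Algebra K N] [Field N']
    [Algebra K N'] [Algebra N N'] [IsScalarTower K N N'] (A : Subalgebra N N') (z : N')
    (h : IsIntegral (A.restrictScalars K) z) : IsIntegral A z := h

theorem mem_res {K N N' : Type} [Field K] [Field N] [Algebra K N] [Field N']
    [Algebra K N'] [Algebra N N'] [IsScalarTower K N N'] (A : Subalgebra N N') (z : N')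
    (h : z ∈ A) : z ∈ A.restrictScalars K := h

theorem core (h1 : St_pts2) (h2 : St_int2) (h4 : St_spa) (h5 : St_spb) (h6 : St_uni)
    (p : ℕ) [Fact p.Prime] (K N N' : Type) [Field K] [CharP K p] [Field N] [IsAlgClosed N]
    [Algebra K N] [Field N'] [IsAlgClosed N'] [Algebra K N'] [Algebra N N'] [IsScalarTower K N N']
    (S₀ : N') (hS : Transcendental N S₀) (hSt : IsTranscendenceBasis N (fun _ : Unit => S₀))
    (Θ : K[X][X]) (D₀ D₁ D : K[X]) (d B m : ℕ) (hDD : DD Θ D₀ d) (hBB : BB Θ B m) (hD₁ : D₁ ≠ 0)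
    (hD : D = (D₀ * D₁) ^ 4) (e : K) (ν : Fin m → N) (S : Finset (N × N))
    (hS1 : ∀ z, z ∈ S ↔ (GG D p B ν).eval z.1 = 0 ∧ (tA Θ z.1).eval z.2 = 0)
    (hS2 : ∀ z ∈ S, aeval z.1 D ≠ 0) (hS3 : S.card = d * (p * (B + D.natDegree)))
    (hS4 : ∏ z ∈ S, tZ Θ z.1 z.2 = algebraMap K N (e ^ 2))
    (s : N) (hs : s ≠ 0) (x θ : Fin (d * (p * (B + D.natDegree))) → N)
    (hx : Function.Injective x) (hpt : ∀ l, IsPt Θ D p B ν s (x l) (θ l)) :
    ∏ l, tZ Θ (x l) (θ l) = algebraMap K N (e ^ 2) := by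
  have hS0 : S₀ ≠ 0 := by
    intro h
    apply hS
    rw [h]
    exact isAlgebraic_zero
  let ν' : Fin m → N' := fun i => algebraMap N N' (ν i)
  obtain ⟨X', T, hX, hXT, hex, hder⟩ := h1 p K N' Θ D₀ D₁ D d B m hDD hBB hD₁ hD ν' S₀ hS0
  haveI : CharP N p := charP_of_injective_algebraMap (algebraMap K N).injective p
  -- the norm is not zero
  have hD0 : D ≠ 0 := by
    rw [hD]
    exact pow_ne_zero _ (mul_ne_zero hDD.ne hD₁)
  have hcne : (algebraMap K N' D.leadingCoeff) ^ (p * d) ≠ 0 := by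
    refine pow_ne_zero _ ((map_ne_zero_iff _ (algebraMap K N').injective).2 ?_)
    exact leadingCoeff_ne_zero.2 hD0
  have hZne : ∀ l, tZ Θ (X' l) (T l) ≠ 0 := by
    intro l h0
    have h1 := hder l
    rw [h0, zero_pow (Nat.Prime.ne_zero Fact.out), mul_zero] at h1
    refine (mul_ne_zero hcne ?_) h1
    rw [Finset.prod_ne_zero_iff]
    intro j hj
    rw [sub_ne_zero]
    exact fun h => (Finset.ne_of_mem_erase hj) (hX h).symm
  -- integrality
  have hint : ∀ l, IsIntegral (Algebra.adjoin N (Set.range (fun _ : Unit => S₀)))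
        (tZ Θ (X' l) (T l)) ∧
      IsIntegral (Algebra.adjoin N (Set.range (fun _ : Unit => S₀))) (tZ Θ (X' l) (T l))⁻¹ := by
    intro l
    have m1 : S₀ ∈ Algebra.adjoin N (Set.range (fun _ : Unit => S₀)) :=
      Algebra.subset_adjoin ⟨(), rfl⟩
    have m2 : ∀ i, ν' i ∈ Algebra.adjoin N (Set.range (fun _ : Unit => S₀)) := fun i =>
      Subalgebra.algebraMap_mem _ (ν i)
    have h3 := h2 p K N' Θ D₀ D₁ D d B m hDD hBB hD₁ hD ν' S₀ _ _ (hXT l)
      ((Algebra.adjoin N (Set.range (fun _ : Unit => S₀))).restrictScalars K)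
      (mem_res (K := K) _ _ m1) (fun i => mem_res (K := K) _ _ (m2 i))
    exact ⟨int_res (K := K) _ _ h3.2.2.2.1, int_res (K := K) _ _ h3.2.2.2.2⟩
  -- invariance
  have hinv : ∀ σ : N' ≃ₐ[N] N', (∀ i : Unit, σ ((fun _ : Unit => S₀) i) = (fun _ : Unit => S₀) i) →
      σ (∏ l, tZ Θ (X' l) (T l)) = ∏ l, tZ Θ (X' l) (T l) := by
    intro σ hσ
    have hσS : σ S₀ = S₀ := hσ ()
    obtain ⟨τ, hτ⟩ : ∃ τ : N' →ₐ[K] N', ∀ z, τ z = σ z :=
      ⟨(σ : N' →ₐ[N] N').restrictScalars K, fun z => rfl⟩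
    have hpt' : ∀ l, IsPt Θ D p B ν' S₀ (τ (X' l)) (τ (T l)) := by
      intro l
      have h3 := (hXT l).map τ
      have h7 : (fun i => τ (ν' i)) = ν' := by
        funext i
        rw [hτ]
        exact σ.commutes (ν i)
      rw [h7, hτ S₀, hσS] at h3
      exact h3
    have h3 := prod_eq hex (x' := fun l => τ (X' l)) (θ' := fun l => τ (T l))
      (fun a b hab => hX (τ.injective hab)) hpt'
    rw [← hτ, map_prod, ← h3]
    exact Finset.prod_congr rfl fun l _ => (tZ_map Θ τ (X' l) (T l)).symm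
  have halg : IsAlgebraic N (∏ l, tZ Θ (X' l) (T l)) := by
    refine h6 p N N' Unit (fun _ : Unit => S₀) hSt _
      (Finset.prod_ne_zero_iff.2 fun l _ => hZne l) (IsIntegral.prod _ fun l _ => (hint l).1) ?_
      hinv
    rw [← Finset.prod_inv_distrib]
    exact IsIntegral.prod _ fun l _ => (hint l).2
  obtain ⟨C₀, hC₀⟩ : ∃ C₀ : N, algebraMap N N' C₀ = ∏ l, tZ Θ (X' l) (T l) := by
    have h3 := halg.isIntegral
    have h7 : (minpoly N (∏ l, tZ Θ (X' l) (T l))).degree = 1 :=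
      IsAlgClosed.degree_eq_one_of_irreducible N (minpoly.irreducible h3)
    exact minpoly.mem_range_of_degree_eq_one N _ h7
  obtain ⟨A, hAc, hAS, hAN, hAρ⟩ := spec K N N' S₀ hS
  -- `s` to zero
  have hz : C₀ = algebraMap K N (e ^ 2) := by
    obtain ⟨ρ, hρ1, hρ2⟩ := hAρ 0
    have hν : (fun i => ρ ⟨ν' i, hAN (ν i)⟩) = ν := by
      funext i
      exact hρ2 _ _
    obtain ⟨hc, h3⟩ := h5 p K N' N Θ D₀ D₁ D d B m hDD hBB hD₁ hD ν' S₀ hS0 X' T hX hXT A ρ hAc
      hAS (fun i => hAN (ν i)) (hρ1 hAS) S (by rw [hν]; exact hS1) hS2 hS3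
    rw [← hS4, ← h3]
    have h7 := hρ2 C₀ (hAN C₀)
    refine h7.symm.trans ?_
    congr 1
    exact Subtype.ext hC₀
  -- the value at `s`
  obtain ⟨ρ, hρ1, hρ2⟩ := hAρ s
  have hν : (fun i => ρ ⟨ν' i, hAN (ν i)⟩) = ν := by
    funext i
    exact hρ2 _ _
  obtain ⟨x', θ', hx', hpt', hc, h3⟩ := h4 p K N' N Θ D₀ D₁ D d B m hDD hBB hD₁ hD ν' S₀ hS0 X' T
    hX hXT A ρ hAc hAS (fun i => hAN (ν i)) (by rw [hρ1 hAS]; exact hs)
  rw [hν, hρ1 hAS] at hpt'
  have h7 : C₀ = ∏ l, tZ Θ (x' l) (θ' l) := by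
    rw [← h3]
    refine (hρ2 C₀ (hAN C₀)).symm.trans ?_
    congr 1
    exact Subtype.ext hC₀
  obtain ⟨x₂, θ₂, hx₂, hpt₂, hex₂, -⟩ := h1 p K N Θ D₀ D₁ D d B m hDD hBB hD₁ hD ν s hs
  rw [prod_eq hex₂ hx hpt, ← prod_eq hex₂ hx' hpt', ← h7, hz]

theorem core' (h1 : St_pts2) (h2 : St_int2) (h4 : St_spa) (h5 : St_spb) (h6 : St_uni)
    (p : ℕ) [Fact p.Prime] (K N N' : Type) [Field K] [CharP K p] [Field N] [IsAlgClosed N]
    [Algebra K N] [Field N'] [IsAlgClosed N'] [Algebra N N']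
    (S₀ : N') (hS : Transcendental N S₀) (hSt : IsTranscendenceBasis N (fun _ : Unit => S₀))
    (Θ : K[X][X]) (D₀ D₁ D : K[X]) (d B m : ℕ) (hDD : DD Θ D₀ d) (hBB : BB Θ B m) (hD₁ : D₁ ≠ 0)
    (hD : D = (D₀ * D₁) ^ 4) (e : K) (ν : Fin m → N) (S : Finset (N × N))
    (hS1 : ∀ z, z ∈ S ↔ (GG D p B ν).eval z.1 = 0 ∧ (tA Θ z.1).eval z.2 = 0)
    (hS2 : ∀ z ∈ S, aeval z.1 D ≠ 0) (hS3 : S.card = d * (p * (B + D.natDegree)))
    (hS4 : ∏ z ∈ S, tZ Θ z.1 z.2 = algebraMap K N (e ^ 2))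
    (s : N) (hs : s ≠ 0) (x θ : Fin (d * (p * (B + D.natDegree))) → N)
    (hx : Function.Injective x) (hpt : ∀ l, IsPt Θ D p B ν s (x l) (θ l)) :
    ∏ l, tZ Θ (x l) (θ l) = algebraMap K N (e ^ 2) := by
  letI : Algebra K N' := ((algebraMap N N').comp (algebraMap K N)).toAlgebra
  haveI : IsScalarTower K N N' := IsScalarTower.of_algebraMap_eq fun _ => rfl
  exact core h1 h2 h4 h5 h6 p K N N' S₀ hS hSt Θ D₀ D₁ D d B m hDD hBB
    hD₁ hD e ν S hS1 hS2 hS3 hS4 s hs x θ hx hpt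

theorem t_sq (h1 : St_pts2) (h2 : St_int2) (h3 : St_zero2) (h4 : St_spa) (h5 : St_spb)
    (h6 : St_uni) : St_sq := by
  intro p _ K _ _ Θ D₀ D₁ D d B m hDD hBB hD₁ hD hB
  obtain ⟨e, he⟩ := h3 p K Θ D₀ D₁ D d B m hDD hBB hD₁ hD hB
  refine ⟨e, ?_⟩
  intro N _ _ _ ν s hs x θ hx hpt
  obtain ⟨S, hS1, hS2, hS3, hS4⟩ := he N ν
  have hS : Transcendental N (algebraMap (RatFunc N) (AlgebraicClosure (RatFunc N)) RatFunc.X) :=
    (transcendental_algebraMap_iff (algebraMap (RatFunc N) _).injective).2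
      RatFunc.transcendental_X
  have hSt : IsTranscendenceBasis N (fun _ : Unit =>
      algebraMap (RatFunc N) (AlgebraicClosure (RatFunc N)) RatFunc.X) := by
    have a1 := IsTranscendenceBasis.polynomial Unit N
    haveI : Algebra.IsAlgebraic N[X] (RatFunc N) := IsLocalization.isAlgebraic (RatFunc N) (nonZeroDivisors N[X])
    have a2 : IsTranscendenceBasis N (fun _ : Unit => (RatFunc.X : RatFunc N)) := by
      have a3 := a1.algebraMap_comp (A := RatFunc N)
      convert a3 using 1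
      funext i
      exact (RatFunc.algebraMap_X).symm
    exact a2.algebraMap_comp (A := AlgebraicClosure (RatFunc N))
  exact core' h1 h2 h4 h5 h6 p K N (AlgebraicClosure (RatFunc N)) _ hS hSt Θ D₀ D₁ D d B m hDD hBB
    hD₁ hD e ν S hS1 hS2 hS3 hS4 s hs x θ hx hpt

end Pool.Agent.Y3.AW2
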